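import Mathlib

set_option linter.unusedSectionVars false

namespace Pool.Agent.H.BA
open Finset Classical

variable {V : Type*} [Fintype V]

/-- the vertex set of the component of u -/
noncomputable def comp (G : SimpleGraph V) (u : V) : Finset V :=
  univ.filter (fun z => G.Reachable u z)

theorem mem_comp {G : SimpleGraph V} {u z : V} : z ∈ comp G u ↔ G.Reachable u z := by
  simp [comp]

theorem self_mem (G : SimpleGraph V) (u : V) : u ∈ comp G u := mem_comp.2 (.refl u)

theorem step {G : SimpleGraph V} {u z w : V} (hz : z ∈ comp G u) (h : G.Adj z w) :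
    w ∈ comp G u := mem_comp.2 ((mem_comp.1 hz).trans h.reachable)

theorem comp_ind {G : SimpleGraph V} {u : V} (P : V → Prop) (hu : P u)
    (hs : ∀ z w, z ∈ comp G u → P z → G.Adj z w → P w) : ∀ z ∈ comp G u, P z := by
  intro z hz
  have h := (SimpleGraph.reachable_iff_reflTransGen u z).1 (mem_comp.1 hz)
  induction h with
  | refl => exact hu
  | tail h1 h2 ih =>
    have hb := mem_comp.2 ((SimpleGraph.reachable_iff_reflTransGen u _).2 h1)
    exact hs _ _ hb (ih hb) h2

theorem comp_eq {G : SimpleGraph V} {u z : V} (hz : z ∈ comp G u) : comp G z = comp G u := by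
  ext w
  rw [mem_comp, mem_comp]
  exact ⟨fun h => (mem_comp.1 hz).trans h, fun h => (mem_comp.1 hz).symm.trans h⟩

theorem comp_symm {G : SimpleGraph V} {u z : V} (hz : z ∈ comp G u) : u ∈ comp G z :=
  mem_comp.2 (mem_comp.1 hz).symm

theorem comp_mono {G G' : SimpleGraph V} (h : G ≤ G') (u : V) : comp G u ⊆ comp G' u :=
  fun _ hz => mem_comp.2 ((mem_comp.1 hz).mono h)

/-- G without the edge xy -/
def del (G : SimpleGraph V) (x y : V) : SimpleGraph V := G.deleteEdges {s(x, y)}

theorem del_adj {G : SimpleGraph V} {x y z w : V} :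
    (del G x y).Adj z w ↔ G.Adj z w ∧ ¬ (z = x ∧ w = y) ∧ ¬ (z = y ∧ w = x) := by
  simp only [del, SimpleGraph.deleteEdges_adj, Set.mem_singleton_iff, Sym2.eq_iff]
  tauto

theorem del_comm (G : SimpleGraph V) (x y : V) : del G x y = del G y x := by
  ext z w; rw [del_adj, del_adj]; tauto

theorem del_le (G : SimpleGraph V) (x y : V) : del G x y ≤ G := fun _ _ h => (del_adj.1 h).1

theorem del_mono {G G' : SimpleGraph V} (h : G ≤ G') (x y : V) : del G x y ≤ del G' x y :=
  fun _ _ hz => del_adj.2 ⟨h (del_adj.1 hz).1, (del_adj.1 hz).2⟩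

/-- the side of x once the edge xy is removed -/
noncomputable def side (G : SimpleGraph V) (b : V × V) : Finset V := comp (del G b.1 b.2) b.1

/-- oriented bridges -/
noncomputable def Br (G : SimpleGraph V) : Finset (V × V) :=
  univ.filter (fun b => G.Adj b.1 b.2 ∧ b.2 ∉ side G b)

theorem mem_Br {G : SimpleGraph V} {b : V × V} : b ∈ Br G ↔ G.Adj b.1 b.2 ∧ b.2 ∉ side G b := by
  simp [Br]

theorem side_swap (G : SimpleGraph V) (b : V × V) : side G b.swap = comp (del G b.1 b.2) b.2 := by
  simp only [side, Prod.fst_swap, Prod.snd_swap]; rw [del_comm]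

theorem swap_mem {G : SimpleGraph V} {b : V × V} (h : b ∈ Br G) : b.swap ∈ Br G := by
  rw [mem_Br] at h ⊢
  refine ⟨h.1.symm, fun h' => h.2 ?_⟩
  rw [side_swap] at h'
  exact comp_symm h'

theorem fst_mem (G : SimpleGraph V) (b : V × V) : b.1 ∈ side G b := self_mem _ _

theorem side_disj {G : SimpleGraph V} {b : V × V} (h : b ∈ Br G) {z : V} (h1 : z ∈ side G b)
    (h2 : z ∈ side G b.swap) : False := by
  rw [side_swap] at h2
  apply (mem_Br.1 h).2
  have := comp_eq h1
  have h3 := comp_symm h2
  unfold side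
  rw [← this]; exact h3

theorem side_step {G : SimpleGraph V} {b : V × V} {z w : V} (hz : z ∈ side G b) (h : G.Adj z w)
    (h1 : ¬ (z = b.1 ∧ w = b.2)) (h2 : ¬ (z = b.2 ∧ w = b.1)) : w ∈ side G b :=
  step hz (del_adj.2 ⟨h, h1, h2⟩)

theorem side_sub_comp (G : SimpleGraph V) (b : V × V) : side G b ⊆ comp G b.1 :=
  comp_mono (del_le _ _ _) _

/-- every vertex of the component lies on one of the two sides -/
theorem side_cover {G : SimpleGraph V} (b : V × V) {z : V} (hz : z ∈ comp G b.1) :
    z ∈ side G b ∨ z ∈ side G b.swap := by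
  refine comp_ind (fun z => z ∈ side G b ∨ z ∈ side G b.swap) (Or.inl (fst_mem _ _)) ?_ z hz
  intro z w _ hz' hadj
  by_cases h1 : w = b.1
  · left; rw [h1]; exact fst_mem _ _
  by_cases h2 : w = b.2
  · right; rw [h2]; exact fst_mem G b.swap
  rcases hz' with h | h
  · left; exact side_step h hadj (fun h => h2 h.2) (fun h => h1 h.2)
  · right; exact side_step h hadj (fun h => h1 h.2) (fun h => h2 h.2)

/-- a side free of the endpoints of another edge lies inside one side of that edge -/
theorem side_sub {G : SimpleGraph V} {b c : V × V} (h1 : c.1 ∉ side G b) (h2 : c.2 ∉ side G b)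
    {p : V} (hp : p ∈ side G b) (hp' : p ∈ side G c) : side G b ⊆ side G c := by
  have key : ∀ z ∈ side G b, z ∈ comp (del G c.1 c.2) b.1 := by
    refine comp_ind (fun z => z ∈ comp (del G c.1 c.2) b.1) (self_mem _ _) ?_
    intro z w hz hz' hadj
    refine step hz' (del_adj.2 ⟨(del_adj.1 hadj).1, fun h => h1 ?_, fun h => h2 ?_⟩)
    · rw [← h.1]; exact hz
    · rw [← h.1]; exact hz
  intro z hz
  have e1 := comp_eq (key p hp)
  have e2 : comp (del G c.1 c.2) p = side G c := comp_eq hp'
  rw [← e2, e1]; exact key z hz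

theorem same_side {G : SimpleGraph V} {b c : V × V} (hc : c ∈ Br G) (hne : c ≠ b)
    (hne' : c ≠ b.swap) (h : c.1 ∈ side G b) : c.2 ∈ side G b :=
  side_step h (mem_Br.1 hc).1 (fun h => hne (Prod.ext h.1 h.2))
    (fun h => hne' (Prod.ext h.1 h.2))

/-- bridges separating p from q are strictly nested -/
theorem nested {G : SimpleGraph V} {b c : V × V} (hb : b ∈ Br G) (hc : c ∈ Br G) (hne : c ≠ b)
    {p q : V} (hpb : p ∈ side G b) (hpc : p ∈ side G c) (hqb : q ∈ side G b.swap)
    (hqc : q ∈ side G c.swap) : side G b ⊂ side G c ∨ side G c ⊂ side G b := by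
  have hne' : c ≠ b.swap := by
    rintro rfl
    exact side_disj hb hpb hpc
  have hne2 : b ≠ c.swap := by
    rintro rfl
    exact side_disj hc hpc hpb
  have aux : ∀ b c : V × V, b ∈ Br G → c ∈ Br G → c ≠ b → c ≠ b.swap → b ≠ c.swap →
      p ∈ side G b → p ∈ side G c → c.1 ∉ side G b → side G b ⊂ side G c := by
    intro b c hb hc hne hne' hne2 hpb hpc h1
    have h2 : c.2 ∉ side G b := fun h => h1 (same_side (swap_mem hc) (fun h => hne' (by
      rw [← h]; simp)) (fun h => hne (Prod.swap_injective h)) h)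
    have hs := side_sub h1 h2 hpb hpc
    refine ⟨hs, fun h => (mem_Br.1 hb).2 (h ?_)⟩
    exact same_side hb hne.symm hne2 (hs (fst_mem _ _))
  by_cases h1 : c.1 ∈ side G b
  · by_cases h2 : b.1 ∈ side G c
    · exfalso
      have h1' := same_side hc hne hne' h1
      have h2' := same_side hb hne.symm hne2 h2
      have hs : side G b.swap ⊆ side G c.swap :=
        side_sub (b := b.swap) (c := c.swap) (fun h => side_disj hb h1' h)
          (fun h => side_disj hb h1 h) hqb hqc
      exact side_disj hc h2' (hs (fst_mem G b.swap))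
    · right; exact aux c b hc hb hne.symm hne2 hne' hpc hpb h2
  · left; exact aux b c hb hc hne hne' hne2 hpb hpc h1

/-- at most 2n oriented bridges -/
theorem card_Br (G : SimpleGraph V) : (Br G).card ≤ 2 * Fintype.card V := by
  let root : V → V := fun u => (G.connectedComponentMk u).out
  have hroot : ∀ u, root u ∈ comp G u := by
    intro u
    apply mem_comp.2
    apply SimpleGraph.ConnectedComponent.exact
    exact ((G.connectedComponentMk u).out_eq).symm
  have hroot2 : ∀ u w, G.Adj u w → root u = root w := by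
    intro u w h
    show (G.connectedComponentMk u).out = (G.connectedComponentMk w).out
    rw [SimpleGraph.ConnectedComponent.sound h.reachable]
  let B1 := (Br G).filter (fun b => root b.1 ∈ side G b.swap)
  have h1 : B1.card ≤ Fintype.card V := by
    rw [← Finset.card_univ]
    apply Finset.card_le_card_of_injOn (fun b => b.1) (fun _ _ => mem_coe.2 (mem_univ _))
    intro b hb c hc hbc
    by_contra hne
    have hb' := mem_filter.1 (mem_coe.1 hb)
    have hc' := mem_filter.1 (mem_coe.1 hc)
    have hbc' : b.1 = c.1 := hbc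
    have aux : ∀ b c : V × V, b ∈ Br G → c ∈ Br G → b ≠ c → b.1 = c.1 →
        ¬ side G b ⊆ side G c := by
      intro b c hb hc hne h hs
      apply (mem_Br.1 hc).2
      apply hs
      refine same_side hc hne.symm ?_ (h ▸ fst_mem G b)
      intro h'
      have : c.1 = b.2 := by rw [h']; rfl
      exact (mem_Br.1 hb).1.ne (h.trans this)
    rcases nested hb'.1 hc'.1 (Ne.symm hne) (fst_mem G b) (hbc' ▸ fst_mem G c) hb'.2
      (hbc' ▸ hc'.2) with h | h
    · exact aux b c hb'.1 hc'.1 hne hbc' h.1
    · exact aux c b hc'.1 hb'.1 (Ne.symm hne) hbc'.symm h.1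
  have h2 : Br G ⊆ B1 ∪ B1.image Prod.swap := by
    intro b hb
    rcases side_cover b (hroot b.1) with h | h
    · refine mem_union_right _ (mem_image.2 ⟨b.swap, mem_filter.2 ⟨swap_mem hb, ?_⟩, by simp⟩)
      simp only [Prod.swap_swap, Prod.fst_swap]
      rw [← hroot2 _ _ (mem_Br.1 hb).1]; exact h
    · exact mem_union_left _ (mem_filter.2 ⟨hb, h⟩)
  calc (Br G).card ≤ (B1 ∪ B1.image Prod.swap).card := card_le_card h2
    _ ≤ B1.card + (B1.image Prod.swap).card := card_union_le _ _
    _ ≤ B1.card + B1.card := Nat.add_le_add_left card_image_le _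
    _ ≤ 2 * Fintype.card V := by omega

/-- H with the edge uv added -/
def add (H : SimpleGraph V) (e : V × V) : SimpleGraph V := H ⊔ SimpleGraph.edge e.1 e.2

theorem add_adj {H : SimpleGraph V} {e : V × V} {z w : V} :
    (add H e).Adj z w ↔ H.Adj z w ∨ ((z = e.1 ∧ w = e.2 ∨ z = e.2 ∧ w = e.1) ∧ z ≠ w) := by
  simp only [add, SimpleGraph.sup_adj, SimpleGraph.edge_adj]

theorem le_add (H : SimpleGraph V) (e : V × V) : H ≤ add H e := le_sup_left

theorem del_add {H : SimpleGraph V} {e : V × V} (he : e.2 ∉ comp H e.1) :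
    del (add H e) e.1 e.2 = H := by
  ext z w
  rw [del_adj, add_adj]
  constructor
  · rintro ⟨h | h, h1, h2⟩
    · exact h
    · tauto
  · intro h
    refine ⟨Or.inl h, ?_, ?_⟩
    · rintro ⟨rfl, rfl⟩; exact he (step (self_mem _ _) h)
    · rintro ⟨rfl, rfl⟩; exact he (step (self_mem _ _) h.symm)

theorem side_add {H : SimpleGraph V} {e : V × V} (he : e.2 ∉ comp H e.1) :
    side (add H e) e = comp H e.1 := by unfold side; rw [del_add he]

theorem side_add' {H : SimpleGraph V} {e : V × V} (he : e.2 ∉ comp H e.1) :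
    side (add H e) e.swap = comp H e.2 := by rw [side_swap, del_add he]

theorem add_Br {H : SimpleGraph V} {e : V × V} (he : e.2 ∉ comp H e.1) : e ∈ Br (add H e) := by
  rw [mem_Br, side_add he]
  refine ⟨add_adj.2 (Or.inr ⟨Or.inl ⟨rfl, rfl⟩, fun h => he (h ▸ self_mem _ _)⟩), he⟩

/-- a bridge of H + uv whose side strictly contains the component of v -/
theorem transfer {H : SimpleGraph V} {e b : V × V} (he : e.2 ∉ comp H e.1)
    (hb : b ∈ Br (add H e)) (hs : comp H e.2 ⊂ side (add H e) b) :
    b ∈ Br H ∧ e.1 ∈ side H b ∧ (side (add H e) b).card = (side H b).card + (comp H e.2).card := by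
  have hv : e.2 ∈ side (add H e) b := hs.1 (self_mem _ _)
  have hne : b ≠ e := by
    rintro rfl
    exact (mem_Br.1 hb).2 hv
  have hne' : b ≠ e.swap := by
    rintro rfl
    rw [side_add' he] at hs
    exact hs.2 (Subset.refl _)
  have hadj : H.Adj b.1 b.2 := by
    rcases add_adj.1 (mem_Br.1 hb).1 with h | ⟨h | h, -⟩
    · exact h
    · exact absurd (Prod.ext h.1 h.2) hne
    · exact absurd (Prod.ext h.1 h.2) hne'
  have hmono : side H b ⊆ side (add H e) b := comp_mono (del_mono (le_add H e) _ _) _
  have hx : b.1 ∉ comp H e.2 := fun h => (mem_Br.1 hb).2 (hs.1 (step h hadj))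
  have hdisj : ∀ z, z ∈ side H b → z ∉ comp H e.2 := by
    intro z hz hz'
    apply hx
    rw [← comp_eq hz']
    exact comp_symm (side_sub_comp H b hz)
  have hu : e.1 ∈ side H b := by
    by_contra hu
    have : ∀ z ∈ side (add H e) b, z ∈ side H b := by
      refine comp_ind (fun z => z ∈ side H b) (fst_mem _ _) ?_
      intro z w _ hz hzw
      rcases add_adj.1 (del_adj.1 hzw).1 with h | ⟨h | h, -⟩
      · exact side_step hz h (del_adj.1 hzw).2.1 (del_adj.1 hzw).2.2
      · exact absurd (h.1 ▸ hz) hu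
      · exact absurd (h.1 ▸ self_mem H e.2) (hdisj z hz)
    exact hdisj _ (this _ hv) (self_mem _ _)
  refine ⟨mem_Br.2 ⟨hadj, fun h => (mem_Br.1 hb).2 (hmono h)⟩, hu, ?_⟩
  have heq : side (add H e) b = side H b ∪ comp H e.2 := by
    apply Subset.antisymm
    · refine comp_ind (fun z => z ∈ side H b ∪ comp H e.2) (mem_union_left _ (fst_mem _ _)) ?_
      intro z w _ hz hzw
      rcases add_adj.1 (del_adj.1 hzw).1 with h | ⟨h | h, -⟩
      · rcases mem_union.1 hz with hz | hz
        · exact mem_union_left _ (side_step hz h (del_adj.1 hzw).2.1 (del_adj.1 hzw).2.2)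
        · exact mem_union_right _ (step hz h)
      · rw [h.2]; exact mem_union_right _ (self_mem _ _)
      · rw [h.2]; exact mem_union_left _ hu
    · exact union_subset hmono hs.1
  rw [heq, card_union_of_disjoint (disjoint_left.2 hdisj)]

/-- components of H + uv -/
theorem comp_add {H : SimpleGraph V} (e : V × V) (z : V) :
    comp (add H e) z ⊆ comp H z ∨ comp (add H e) z ⊆ comp H e.1 ∪ comp H e.2 := by
  by_cases hz : z ∈ comp H e.1 ∪ comp H e.2
  · right
    refine comp_ind (fun z => z ∈ comp H e.1 ∪ comp H e.2) hz ?_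
    intro z w _ hz hzw
    rcases add_adj.1 hzw with h | ⟨h | h, -⟩
    · rcases mem_union.1 hz with hz | hz
      · exact mem_union_left _ (step hz h)
      · exact mem_union_right _ (step hz h)
    · rw [h.2]; exact mem_union_right _ (self_mem _ _)
    · rw [h.2]; exact mem_union_left _ (self_mem _ _)
  · left
    refine comp_ind (fun w => w ∈ comp H z) (self_mem _ _) ?_
    intro w w' _ hw hww
    rcases add_adj.1 hww with h | ⟨h | h, -⟩
    · exact step hw h
    · exact absurd (mem_union_left _ (comp_symm (h.1 ▸ hw))) hz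
    · exact absurd (mem_union_right _ (comp_symm (h.1 ▸ hw))) hz

end Pool.Agent.H.BA
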