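import Pool.Agent.H.MP_572a82_pr.A

set_option linter.unusedSectionVars false

namespace Pool.Agent.H.BA
open Finset Classical

variable {V : Type*} [Fintype V]

/-- ordered pairs in different components -/
noncomputable def X (H : SimpleGraph V) : Finset (V × V) :=
  univ.filter (fun e => e.2 ∉ comp H e.1)

theorem mem_X {H : SimpleGraph V} {e : V × V} : e ∈ X H ↔ e.2 ∉ comp H e.1 := by simp [X]

def BAdd (A : Finset (SimpleGraph V)) : Prop := ∀ H ∈ A, ∀ e ∈ X H, add H e ∈ A

theorem dc {A : Finset (SimpleGraph V)} (hA : BAdd A) (Q : SimpleGraph V → V × V → Prop)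
    [∀ G e, Decidable (Q G e)] :
    ∑ H ∈ A, ((X H).filter (fun e => Q (add H e) e)).card ≤
      ∑ G ∈ A, ((Br G).filter (fun e => Q G e)).card := by
  rw [← Finset.card_sigma, ← Finset.card_sigma]
  apply Finset.card_le_card_of_injOn (fun x => ⟨add x.1 x.2, x.2⟩)
  · rintro ⟨H, e⟩ hx
    have hx := mem_sigma.1 (mem_coe.1 hx)
    have h2 := mem_filter.1 hx.2
    exact mem_coe.2 (mem_sigma.2 ⟨hA H hx.1 e h2.1, mem_filter.2 ⟨add_Br (mem_X.1 h2.1), h2.2⟩⟩)
  · rintro ⟨H, e⟩ hx ⟨H', e'⟩ hx' h
    have hx := mem_X.1 (mem_filter.1 (mem_sigma.1 (mem_coe.1 hx)).2).1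
    have hx' := mem_X.1 (mem_filter.1 (mem_sigma.1 (mem_coe.1 hx')).2).1
    simp only [Sigma.mk.injEq, heq_eq_eq] at h
    obtain ⟨h1, rfl⟩ := h
    have : H = H' := by
      exact (del_add hx).symm.trans ((congrArg (fun G => del G e.1 e.2) h1).trans (del_add hx'))
    subst this; rfl

/-- many bridges around u have a side of size in the window (s,t] -/
def good (H : SimpleGraph V) (u : V) (s t r : ℕ) : Prop :=
  r ≤ ((Br H).filter (fun b => u ∈ side H b ∧ s < (side H b).card ∧ (side H b).card ≤ t)).card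

theorem good_one (H : SimpleGraph V) (s t r : ℕ) :
    r * (univ.filter (fun u => good H u s t r)).card ≤
      t * ((Br H).filter (fun b => s < (side H b).card ∧ (side H b).card ≤ t)).card := by
  set W := (Br H).filter (fun b => s < (side H b).card ∧ (side H b).card ≤ t) with hW
  have h1 : ∀ u, ((Br H).filter (fun b => u ∈ side H b ∧ s < (side H b).card ∧
      (side H b).card ≤ t)).card = ∑ b ∈ W, if u ∈ side H b then 1 else 0 := by
    intro u
    rw [← card_filter, hW, filter_filter]
    congr 1
    apply filter_congr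
    intro b _; tauto
  calc r * (univ.filter (fun u => good H u s t r)).card
      = ∑ u ∈ univ.filter (fun u => good H u s t r), r := by simp [mul_comm]
    _ ≤ ∑ u ∈ univ.filter (fun u => good H u s t r), ∑ b ∈ W, if u ∈ side H b then 1 else 0 := by
      apply sum_le_sum
      intro u hu
      rw [← h1]; exact (mem_filter.1 hu).2
    _ ≤ ∑ u, ∑ b ∈ W, if u ∈ side H b then 1 else 0 :=
      sum_le_sum_of_subset (filter_subset _ _)
    _ = ∑ b ∈ W, (side H b).card := by
      rw [sum_comm]
      apply sum_congr rfl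
      intro b _
      simp
    _ ≤ ∑ b ∈ W, t := sum_le_sum (fun b hb => (mem_filter.1 hb).2.2)
    _ = t * W.card := by simp [mul_comm]

theorem good_sum (H : SimpleGraph V) (K m : ℕ) (hK : 1 ≤ K) :
    ∑ j ∈ range m, (univ.filter (fun u => good H u (K ^ j) (K ^ (j + 1)) (K ^ j))).card ≤
      K * (2 * Fintype.card V) := by
  let W : ℕ → Finset (V × V) := fun j =>
    (Br H).filter (fun b => K ^ j < (side H b).card ∧ (side H b).card ≤ K ^ (j + 1))
  have h1 : ∀ j, (univ.filter (fun u => good H u (K ^ j) (K ^ (j + 1)) (K ^ j))).card ≤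
      K * (W j).card := by
    intro j
    have := good_one H (K ^ j) (K ^ (j + 1)) (K ^ j)
    have hp : 0 < K ^ j := pow_pos hK _
    apply Nat.le_of_mul_le_mul_left _ hp
    calc _ ≤ _ := this
      _ = _ := by simp only [W]; ring
  have h2 : ∑ j ∈ range m, (W j).card ≤ (Br H).card := by
    rw [← card_biUnion]
    · apply card_le_card
      intro b hb
      obtain ⟨j, -, hj⟩ := mem_biUnion.1 hb
      exact (mem_filter.1 hj).1
    · intro i _ j _ hij
      apply disjoint_left.2
      intro b hi hj
      have hi := (mem_filter.1 hi).2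
      have hj := (mem_filter.1 hj).2
      rcases lt_or_gt_of_ne hij with h | h
      · have := Nat.pow_le_pow_right hK (show i + 1 ≤ j from h); omega
      · have := Nat.pow_le_pow_right hK (show j + 1 ≤ i from h); omega
  calc _ ≤ ∑ j ∈ range m, K * (W j).card := sum_le_sum (fun j _ => h1 j)
    _ = K * ∑ j ∈ range m, (W j).card := by rw [mul_sum]
    _ ≤ K * (2 * Fintype.card V) := Nat.mul_le_mul_left _ (h2.trans (card_Br H))

theorem nat_bad (T : Finset ℕ) (n s t r : ℕ) (hT : ∀ a ∈ T, a ≤ n) (ht : 0 < t) :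
    (T.filter (fun a => (T.filter (fun b => a + s < b ∧ b ≤ a + t)).card < r)).card ≤
      (r + s) * (n / t + 1) := by
  set B := T.filter (fun a => (T.filter (fun b => a + s < b ∧ b ≤ a + t)).card < r) with hB
  have := card_le_mul_card_image_of_maps_to (s := B) (t := range (n / t + 1)) (f := fun a => a / t)
    (fun a ha => mem_range.2 (Nat.lt_succ_of_le (Nat.div_le_div_right (hT a (mem_filter.1 ha).1))))
    (r + s) ?_
  · simpa using this
  intro k _
  set F := B.filter (fun a => a / t = k) with hF
  rcases F.eq_empty_or_nonempty with h | h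
  · rw [h]; simp
  let a := F.min' h
  have ha : a ∈ F := F.min'_mem h
  have ha1 := mem_filter.1 ha
  have ha2 := mem_filter.1 ha1.1
  have hsub : F ⊆ Icc a (a + s) ∪ T.filter (fun b => a + s < b ∧ b ≤ a + t) := by
    intro b hb
    have hab : a ≤ b := F.min'_le b hb
    have hb1 := mem_filter.1 hb
    have hb2 := mem_filter.1 hb1.1
    by_cases hbs : b ≤ a + s
    · exact mem_union_left _ (mem_Icc.2 ⟨hab, hbs⟩)
    · refine mem_union_right _ (mem_filter.2 ⟨hb2.1, by omega, ?_⟩)
      have e1 := Nat.div_add_mod a t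
      have e2 := Nat.div_add_mod b t
      have e3 := Nat.mod_lt b ht
      rw [ha1.2] at e1
      rw [hb1.2] at e2
      omega
  have h1 := (card_le_card hsub).trans (card_union_le _ _)
  have h2 := ha2.2
  rw [Nat.card_Icc] at h1
  omega

/-- few bridges follow e at mass distance in the window (s,t] -/
def bad (G : SimpleGraph V) (e : V × V) (s t r : ℕ) : Prop :=
  ((Br G).filter (fun b => side G e.swap ⊂ side G b ∧
    (side G e.swap).card + s < (side G b).card ∧ (side G b).card ≤ (side G e.swap).card + t)).card < r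

theorem bad_of_not_good {H : SimpleGraph V} {e : V × V} (he : e ∈ X H) {s t r : ℕ}
    (h : ¬ good H e.1 s t r) : bad (add H e) e s t r := by
  have he := mem_X.1 he
  refine lt_of_le_of_lt (card_le_card ?_) (not_le.1 h)
  intro b hb
  obtain ⟨hb, h1, h2, h3⟩ := mem_filter.1 hb
  rw [side_add' he] at h1 h2 h3
  obtain ⟨t1, t2, t3⟩ := transfer he hb h1
  exact mem_filter.2 ⟨t1, t2, by omega, by omega⟩

theorem bad_chain (G : SimpleGraph V) (s t r : ℕ) (ht : 0 < t) (p q : V) :
    ((Br G).filter (fun e => bad G e s t r ∧ p ∈ side G e.swap ∧ q ∈ side G e)).card ≤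
      (r + s) * (Fintype.card V / t + 1) := by
  let C := (Br G).filter (fun b => p ∈ side G b ∧ q ∈ side G b.swap)
  let T := C.image (fun b => (side G b).card)
  refine le_trans ?_ (nat_bad T (Fintype.card V) s t r ?_ ht)
  · apply card_le_card_of_injOn (fun e => (side G e.swap).card)
    · intro e he
      obtain ⟨he, hbad, hp, hq⟩ := mem_filter.1 (mem_coe.1 he)
      have hC : e.swap ∈ C := mem_filter.2 ⟨swap_mem he, hp, by simpa using hq⟩
      refine mem_coe.2 (mem_filter.2 ⟨mem_image_of_mem _ hC, ?_⟩)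
      refine lt_of_le_of_lt ?_ hbad
      refine le_trans (card_le_card ?_) (card_image_le (f := fun b => (side G b).card))
      intro a ha
      obtain ⟨ha, h1, h2⟩ := mem_filter.1 ha
      obtain ⟨b, hb, rfl⟩ := mem_image.1 ha
      obtain ⟨hb, hb1, hb2⟩ := mem_filter.1 hb
      refine mem_image_of_mem _ (mem_filter.2 ⟨hb, ?_, h1, h2⟩)
      have hne : b ≠ e.swap := by
        rintro rfl
        simp only at h1; omega
      rcases nested (swap_mem he) hb hne hp hb1 (by simpa using hq) hb2 with h | h
      · exact h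
      · have := card_lt_card h
        simp only at h1; omega
    · intro e he e' he' h
      obtain ⟨he, -, hp, hq⟩ := mem_filter.1 (mem_coe.1 he)
      obtain ⟨he', -, hp', hq'⟩ := mem_filter.1 (mem_coe.1 he')
      by_contra hne
      have hne' : e'.swap ≠ e.swap := fun h => hne (Prod.swap_injective h).symm
      rcases nested (swap_mem he) (swap_mem he') hne' hp hp' (by simpa using hq)
        (by simpa using hq') with h' | h'
      · exact (card_lt_card h').ne h
      · exact (card_lt_card h').ne h.symm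
  · intro a ha
    obtain ⟨b, -, rfl⟩ := mem_image.1 ha
    exact card_le_univ _

theorem bad_count (G : SimpleGraph V) (D s t r : ℕ) (ht : 0 < t) (hn : 0 < Fintype.card V) :
    ((Br G).filter (fun e => Fintype.card V ≤ D * (side G e).card ∧
      Fintype.card V ≤ D * (side G e.swap).card ∧ bad G e s t r)).card ≤
      D ^ 2 * ((r + s) * (Fintype.card V / t + 1)) := by
  set n := Fintype.card V with hn'
  set B := (Br G).filter (fun e => n ≤ D * (side G e).card ∧
      n ≤ D * (side G e.swap).card ∧ bad G e s t r) with hB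
  have h1 : ∑ e ∈ B, (side G e.swap).card * (side G e).card ≤ n * n * ((r + s) * (n / t + 1)) := by
    calc ∑ e ∈ B, (side G e.swap).card * (side G e).card
        = ∑ e ∈ B, ∑ x : V × V, if x.1 ∈ side G e.swap ∧ x.2 ∈ side G e then 1 else 0 := by
          apply sum_congr rfl
          intro e _
          rw [← card_product, ← card_filter]
          congr 1
          ext x; simp
      _ = ∑ x : V × V, (B.filter (fun e => x.1 ∈ side G e.swap ∧ x.2 ∈ side G e)).card := by
          rw [sum_comm]
          apply sum_congr rfl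
          intro x _
          rw [card_filter]
      _ ≤ ∑ x : V × V, (r + s) * (n / t + 1) := by
          apply sum_le_sum
          intro x _
          refine le_trans (card_le_card ?_) (bad_chain G s t r ht x.1 x.2)
          intro e he
          obtain ⟨he, h2⟩ := mem_filter.1 he
          obtain ⟨he, -, -, h3⟩ := mem_filter.1 he
          exact mem_filter.2 ⟨he, h3, h2⟩
      _ = _ := by simp [hn']
  have h2 : n * n * B.card ≤ D ^ 2 * ∑ e ∈ B, (side G e.swap).card * (side G e).card := by
    rw [mul_sum]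
    calc n * n * B.card = ∑ e ∈ B, n * n := by simp [mul_comm]
      _ ≤ _ := by
        apply sum_le_sum
        intro e he
        obtain ⟨-, h3, h4, -⟩ := mem_filter.1 he
        calc n * n ≤ (D * (side G e.swap).card) * (D * (side G e).card) := Nat.mul_le_mul h4 h3
          _ = _ := by ring
  apply Nat.le_of_mul_le_mul_left _ (Nat.mul_pos hn hn)
  calc n * n * B.card ≤ _ := h2
    _ ≤ D ^ 2 * (n * n * ((r + s) * (n / t + 1))) := Nat.mul_le_mul_left _ h1
    _ = _ := by ring

/-- pairs joining two large components -/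
noncomputable def P (D : ℕ) (H : SimpleGraph V) : Finset (V × V) :=
  (X H).filter (fun e => Fintype.card V ≤ D * (comp H e.1).card ∧
    Fintype.card V ≤ D * (comp H e.2).card)

theorem P_large (D : ℕ) (H : SimpleGraph V) (h : (P D H).Nonempty) :
    Fintype.card V * Fintype.card V ≤ D ^ 2 * (P D H).card := by
  obtain ⟨e, he⟩ := h
  obtain ⟨he, h1, h2⟩ := mem_filter.1 he
  have hs : comp H e.1 ×ˢ comp H e.2 ⊆ P D H := by
    intro x hx
    obtain ⟨hx1, hx2⟩ := mem_product.1 hx
    refine mem_filter.2 ⟨mem_X.2 ?_, ?_, ?_⟩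
    · rw [comp_eq hx1]
      intro h
      apply mem_X.1 he
      rw [← comp_eq h]; exact comp_symm hx2
    · rw [comp_eq hx1]; exact h1
    · rw [comp_eq hx2]; exact h2
  have := card_le_card hs
  rw [card_product] at this
  calc _ ≤ (D * (comp H e.1).card) * (D * (comp H e.2).card) := Nat.mul_le_mul h1 h2
    _ = D ^ 2 * ((comp H e.1).card * (comp H e.2).card) := by ring
    _ ≤ _ := Nat.mul_le_mul_left _ this

theorem good_P (D K m : ℕ) (hK : 1 ≤ K) (H : SimpleGraph V) :
    ∑ j ∈ range m, ((P D H).filter (fun e => good H e.1 (K ^ j) (K ^ (j + 1)) (K ^ j))).card ≤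
      2 * K * D ^ 2 * (P D H).card := by
  rcases (P D H).eq_empty_or_nonempty with h | h
  · simp [h]
  have h1 := P_large D H h
  have h2 := good_sum H K m hK
  calc _ ≤ ∑ j ∈ range m, (univ.filter (fun u => good H u (K ^ j) (K ^ (j + 1)) (K ^ j))).card *
        Fintype.card V := by
        apply sum_le_sum
        intro j _
        rw [← card_univ, ← card_product]
        apply card_le_card
        intro e he
        exact mem_product.2 ⟨mem_filter.2 ⟨mem_univ _, (mem_filter.1 he).2⟩, mem_univ _⟩
    _ = (∑ j ∈ range m, (univ.filter (fun u => good H u (K ^ j) (K ^ (j + 1)) (K ^ j))).card) *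
        Fintype.card V := by rw [sum_mul]
    _ ≤ K * (2 * Fintype.card V) * Fintype.card V := Nat.mul_le_mul_right _ h2
    _ = 2 * K * (Fintype.card V * Fintype.card V) := by ring
    _ ≤ 2 * K * (D ^ 2 * (P D H).card) := Nat.mul_le_mul_left _ h1
    _ = _ := by ring

theorem bad_P {A : Finset (SimpleGraph V)} (hA : BAdd A) (D s t r : ℕ) (ht : 0 < t)
    (hn : 0 < Fintype.card V) :
    ∑ H ∈ A, ((P D H).filter (fun e => ¬ good H e.1 s t r)).card ≤
      A.card * (D ^ 2 * ((r + s) * (Fintype.card V / t + 1))) := by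
  have h := dc hA (fun G e => Fintype.card V ≤ D * (side G e).card ∧
      Fintype.card V ≤ D * (side G e.swap).card ∧ bad G e s t r)
  calc _ ≤ _ := by
        apply sum_le_sum
        intro H _
        apply card_le_card
        intro e he
        obtain ⟨he, hg⟩ := mem_filter.1 he
        obtain ⟨he, h1, h2⟩ := mem_filter.1 he
        refine mem_filter.2 ⟨he, ?_, ?_, bad_of_not_good he hg⟩
        · rw [side_add (mem_X.1 he)]; exact h1
        · rw [side_add' (mem_X.1 he)]; exact h2
    _ ≤ _ := h
    _ ≤ ∑ G ∈ A, D ^ 2 * ((r + s) * (Fintype.card V / t + 1)) :=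
        sum_le_sum (fun G _ => bad_count G D s t r ht hn)
    _ = _ := by simp

theorem P_sum {A : Finset (SimpleGraph V)} (hA : BAdd A) (D K : ℕ) (hK : 1 ≤ K) (hD : 1 ≤ D)
    (hn : 0 < Fintype.card V) :
    K * ∑ H ∈ A, (P D H).card ≤
      2 * (A.card * (D ^ 2 * (2 * Fintype.card V + 2 * K ^ (4 * K * D ^ 2)))) := by
  set n := Fintype.card V with hn'
  set m := 4 * K * D ^ 2 with hm
  set S := ∑ H ∈ A, (P D H).card with hS
  set Z := A.card * (D ^ 2 * (2 * n + 2 * K ^ m)) with hZ
  have hb : ∀ j ∈ range m, K * ∑ H ∈ A, ((P D H).filter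
      (fun e => ¬ good H e.1 (K ^ j) (K ^ (j + 1)) (K ^ j))).card ≤ Z := by
    intro j hj
    have h1 := bad_P hA D (K ^ j) (K ^ (j + 1)) (K ^ j) (pow_pos hK _) hn
    have h2 : K ^ (j + 1) * (n / K ^ (j + 1)) ≤ n := Nat.mul_div_le _ _
    have h3 : K ^ (j + 1) ≤ K ^ m := Nat.pow_le_pow_right hK (mem_range.1 hj)
    calc _ ≤ K * (A.card * (D ^ 2 * ((K ^ j + K ^ j) * (n / K ^ (j + 1) + 1)))) :=
          Nat.mul_le_mul_left _ h1
      _ = A.card * (D ^ 2 * (2 * (K ^ (j + 1) * (n / K ^ (j + 1))) + 2 * K ^ (j + 1))) := by ring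
      _ ≤ Z := by
        apply Nat.mul_le_mul_left
        apply Nat.mul_le_mul_left
        omega
  have h4 : m * S = ∑ H ∈ A, ∑ j ∈ range m, ((P D H).filter
      (fun e => good H e.1 (K ^ j) (K ^ (j + 1)) (K ^ j))).card + ∑ j ∈ range m, ∑ H ∈ A,
      ((P D H).filter (fun e => ¬ good H e.1 (K ^ j) (K ^ (j + 1)) (K ^ j))).card := by
    rw [sum_comm (s := range m), ← sum_add_distrib, hS, mul_sum]
    apply sum_congr rfl
    intro H _
    rw [← sum_add_distrib]
    simp only [card_filter_add_card_filter_not]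
    simp
  have h5 : ∑ H ∈ A, ∑ j ∈ range m, ((P D H).filter
      (fun e => good H e.1 (K ^ j) (K ^ (j + 1)) (K ^ j))).card ≤ 2 * K * D ^ 2 * S := by
    rw [hS, mul_sum]
    exact sum_le_sum (fun H _ => good_P D K m hK H)
  have h6 : K * ∑ j ∈ range m, ∑ H ∈ A,
      ((P D H).filter (fun e => ¬ good H e.1 (K ^ j) (K ^ (j + 1)) (K ^ j))).card ≤ m * Z := by
    rw [mul_sum]
    calc _ ≤ ∑ j ∈ range m, Z := sum_le_sum hb
      _ = _ := by simp
  have hpos : 0 < 2 * K * D ^ 2 := by positivity
  apply Nat.le_of_mul_le_mul_left _ hpos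
  have h7 : K * (m * S) ≤ K * (2 * K * D ^ 2 * S) + m * Z := by
    rw [h4, mul_add]
    exact Nat.add_le_add (Nat.mul_le_mul_left _ h5) h6
  have e1 : K * (m * S) = K * (2 * K * D ^ 2 * S) + 2 * K * D ^ 2 * (K * S) := by rw [hm]; ring
  have e2 : m * Z = 2 * K * D ^ 2 * (2 * Z) := by rw [hm]; ring
  omega

end Pool.Agent.H.BA
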