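import Pool.Agent.H.MP_572a82_pr.B

set_option linter.unusedSectionVars false

namespace Pool.Agent.H.BA
open Finset Classical

variable {V : Type*} [Fintype V]

noncomputable def big (G : SimpleGraph V) : ℕ := univ.sup (fun u => (comp G u).card)

noncomputable def frag (G : SimpleGraph V) : ℕ := Fintype.card V - big G

theorem le_big (G : SimpleGraph V) (u : V) : (comp G u).card ≤ big G :=
  le_sup (f := fun u => (comp G u).card) (mem_univ u)

theorem big_le (G : SimpleGraph V) : big G ≤ Fintype.card V :=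
  Finset.sup_le (fun _ _ => card_le_univ _)

theorem exists_big (G : SimpleGraph V) (hn : 0 < Fintype.card V) : ∃ u, (comp G u).card = big G := by
  have : Nonempty V := Fintype.card_pos_iff.1 hn
  obtain ⟨u, -, hu⟩ := exists_mem_eq_sup univ univ_nonempty (fun u => (comp G u).card)
  exact ⟨u, hu.symm⟩

theorem X_ge (H : SimpleGraph V) : Fintype.card V * frag H ≤ (X H).card := by
  have : (X H).card = ∑ u, (Fintype.card V - (comp H u).card) := by
    rw [X, card_filter, Fintype.sum_prod_type]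
    apply sum_congr rfl
    intro u _
    rw [← card_filter, ← card_compl]
    congr 1
    ext z; simp
  rw [this]
  calc _ = ∑ u : V, frag H := by simp
    _ ≤ _ := sum_le_sum (fun u _ => Nat.sub_le_sub_left (le_big H u) _)

theorem X_ge2 (H : SimpleGraph V) (hn : 0 < Fintype.card V) : 2 * (frag H * big H) ≤ (X H).card := by
  obtain ⟨u, hu⟩ := exists_big H hn
  have hs : (comp H u ×ˢ (comp H u)ᶜ) ∪ ((comp H u)ᶜ ×ˢ comp H u) ⊆ X H := by
    intro x hx
    rw [mem_X]
    rcases mem_union.1 hx with hx | hx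
    · obtain ⟨h1, h2⟩ := mem_product.1 hx
      rw [comp_eq h1]; exact mem_compl.1 h2
    · obtain ⟨h1, h2⟩ := mem_product.1 hx
      intro h
      apply mem_compl.1 h1
      rw [← comp_eq h2]; exact comp_symm h
  have hd : Disjoint (comp H u ×ˢ (comp H u)ᶜ) ((comp H u)ᶜ ×ˢ comp H u) := by
    apply disjoint_left.2
    intro x h1 h2
    exact mem_compl.1 (mem_product.1 h2).1 (mem_product.1 h1).1
  have := card_le_card hs
  rw [card_union_of_disjoint hd, card_product, card_product, card_compl, hu] at this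
  unfold frag
  nlinarith

theorem X_sum {A : Finset (SimpleGraph V)} (hA : BAdd A) :
    ∑ H ∈ A, (X H).card ≤ A.card * (2 * Fintype.card V) := by
  have h := dc hA (fun _ _ => True)
  simp only [filter_true] at h
  calc _ ≤ _ := h
    _ ≤ ∑ G ∈ A, 2 * Fintype.card V := sum_le_sum (fun G _ => card_Br G)
    _ = _ := by simp

theorem frag_sum {A : Finset (SimpleGraph V)} (hA : BAdd A) (hn : 0 < Fintype.card V) :
    ∑ H ∈ A, frag H ≤ 2 * A.card := by
  apply Nat.le_of_mul_le_mul_left _ hn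
  rw [mul_sum]
  calc _ ≤ ∑ H ∈ A, (X H).card := sum_le_sum (fun H _ => X_ge H)
    _ ≤ _ := X_sum hA
    _ = _ := by ring

theorem split {H : SimpleGraph V} {D : ℕ} (hn : 0 < Fintype.card V)
    (hH : 2 * Fintype.card V < D * frag H) {e : V × V} (he : e ∈ X H) :
    e ∈ P D H ∨ Fintype.card V < D * frag (add H e) := by
  by_contra hc
  rw [not_or, not_lt] at hc
  apply hc.1
  obtain ⟨z, hz⟩ := exists_big (add H e) hn
  have h1 := big_le H
  have h2 := big_le (add H e)
  have h3 := le_big H e.1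
  have h4 := le_big H e.2
  have h5 := hc.2
  rcases comp_add (H := H) e z with h | h
  · exfalso
    have := (card_le_card h).trans (le_big H z)
    have h6 : frag H ≤ frag (add H e) := by unfold frag; omega
    have := Nat.mul_le_mul_left D h6
    omega
  · have := (card_le_card h).trans (card_union_le _ _)
    have h6 : frag H ≤ frag (add H e) + (comp H e.1).card := by unfold frag; omega
    have h7 : frag H ≤ frag (add H e) + (comp H e.2).card := by unfold frag; omega
    have h8 := Nat.mul_le_mul_left D h6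
    have h9 := Nat.mul_le_mul_left D h7
    rw [mul_add] at h8 h9
    exact mem_filter.2 ⟨he, by omega, by omega⟩

theorem large_sum {A : Finset (SimpleGraph V)} (hA : BAdd A) (D : ℕ) (hn : 0 < Fintype.card V) :
    ∑ H ∈ A.filter (fun H => 2 * Fintype.card V < D * frag H), (X H).card ≤
      ∑ H ∈ A, (P D H).card + 4 * D * A.card := by
  set n := Fintype.card V with hn'
  have h := dc hA (fun G _ => n < D * frag G)
  have h1 : ∑ G ∈ A, ((Br G).filter (fun _ => n < D * frag G)).card ≤ 4 * D * A.card := by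
    have h2 : ∀ G ∈ A, ((Br G).filter (fun _ => n < D * frag G)).card ≤ 2 * D * frag G := by
      intro G _
      by_cases hG : n < D * frag G
      · calc _ ≤ (Br G).card := card_filter_le _ _
          _ ≤ 2 * n := card_Br G
          _ ≤ 2 * (D * frag G) := by omega
          _ = _ := by ring
      · simp [hG]
    calc _ ≤ ∑ G ∈ A, 2 * D * frag G := sum_le_sum h2
      _ = 2 * D * ∑ G ∈ A, frag G := by rw [mul_sum]
      _ ≤ 2 * D * (2 * A.card) := Nat.mul_le_mul_left _ (frag_sum hA hn)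
      _ = _ := by ring
  calc _ ≤ ∑ H ∈ A.filter (fun H => 2 * n < D * frag H), ((P D H).card +
        ((X H).filter (fun e => n < D * frag (add H e))).card) := by
        apply sum_le_sum
        intro H hH
        refine le_trans (card_le_card ?_) (card_union_le _ _)
        intro e he
        rcases split hn (mem_filter.1 hH).2 he with h | h
        · exact mem_union_left _ h
        · exact mem_union_right _ (mem_filter.2 ⟨he, h⟩)
    _ ≤ ∑ H ∈ A, ((P D H).card + ((X H).filter (fun e => n < D * frag (add H e))).card) :=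
        sum_le_sum_of_subset (filter_subset _ _)
    _ = ∑ H ∈ A, (P D H).card + ∑ H ∈ A, ((X H).filter (fun e => n < D * frag (add H e))).card :=
        sum_add_distrib
    _ ≤ _ := Nat.add_le_add_left (h.trans h1) _

theorem small_sum {A : Finset (SimpleGraph V)} (hA : BAdd A) (D : ℕ) (hn : 0 < Fintype.card V) :
    D * ∑ H ∈ A.filter (fun H => ¬ 2 * Fintype.card V < (D + 2) * frag H), frag H ≤
      (D + 2) * A.card := by
  set n := Fintype.card V with hn'
  apply Nat.le_of_mul_le_mul_left _ (show 0 < 2 * n by omega)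
  have h1 : ∀ H ∈ A.filter (fun H => ¬ 2 * n < (D + 2) * frag H),
      2 * n * (D * frag H) ≤ (D + 2) * (X H).card := by
    intro H hH
    have h2 := not_lt.1 (mem_filter.1 hH).2
    have h3 := X_ge2 H hn
    have h4 : frag H + big H = n := by have := big_le H; unfold frag; omega
    have h5 : D * n ≤ (D + 2) * big H := by nlinarith
    calc 2 * n * (D * frag H) = 2 * frag H * (D * n) := by ring
      _ ≤ 2 * frag H * ((D + 2) * big H) := Nat.mul_le_mul_left _ h5
      _ = (D + 2) * (2 * (frag H * big H)) := by ring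
      _ ≤ _ := Nat.mul_le_mul_left _ h3
  calc _ = ∑ H ∈ A.filter (fun H => ¬ 2 * n < (D + 2) * frag H), 2 * n * (D * frag H) := by
        rw [mul_sum, mul_sum]
    _ ≤ ∑ H ∈ A.filter (fun H => ¬ 2 * n < (D + 2) * frag H), (D + 2) * (X H).card :=
        sum_le_sum h1
    _ ≤ ∑ H ∈ A, (D + 2) * (X H).card := sum_le_sum_of_subset (filter_subset _ _)
    _ = (D + 2) * ∑ H ∈ A, (X H).card := by rw [mul_sum]
    _ ≤ (D + 2) * (A.card * (2 * n)) := Nat.mul_le_mul_left _ (X_sum hA)
    _ = _ := by ring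

theorem bound {A : Finset (SimpleGraph V)} (hA : BAdd A) (D K : ℕ) (hD : 1 ≤ D) (hK : 1 ≤ K)
    (hn : 0 < Fintype.card V) :
    (∑ H ∈ A, (frag H : ℝ)) ≤ A.card * (1 + 2 / D + 4 * (D + 2) ^ 2 / K +
      (4 * (D + 2) ^ 2 * K ^ (4 * K * (D + 2) ^ 2) + 4 * (D + 2)) / Fintype.card V) := by
  set n := Fintype.card V with hn'
  have h1 := small_sum hA D hn
  have h2 := large_sum hA (D + 2) hn
  have h3 := P_sum hA (D + 2) K hK (by omega) hn
  have h4 : n * ∑ H ∈ A.filter (fun H => 2 * n < (D + 2) * frag H), frag H ≤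
      ∑ H ∈ A.filter (fun H => 2 * n < (D + 2) * frag H), (X H).card := by
    rw [mul_sum]; exact sum_le_sum (fun H _ => X_ge H)
  have h5 := sum_filter_add_sum_filter_not A (fun H => 2 * n < (D + 2) * frag H) frag
  rw [← hn'] at h1 h2 h3
  generalize ∑ H ∈ A.filter (fun H => 2 * n < (D + 2) * frag H), frag H = a at *
  generalize ∑ H ∈ A.filter (fun H => ¬ 2 * n < (D + 2) * frag H), frag H = b at *
  generalize ∑ H ∈ A.filter (fun H => 2 * n < (D + 2) * frag H), (X H).card = c at *
  generalize ∑ H ∈ A, (P (D + 2) H).card = d at *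
  rw [← Nat.cast_sum, ← h5]
  generalize A.card = N at *
  have hD' : (0 : ℝ) < D := by exact_mod_cast hD
  have hK' : (1 : ℝ) ≤ K := by exact_mod_cast hK
  have hn'' : (0 : ℝ) < n := by exact_mod_cast hn
  have h1' : (D : ℝ) * b ≤ (D + 2) * N := by exact_mod_cast h1
  have h2' : (n : ℝ) * a ≤ d + 4 * (D + 2) * N := by exact_mod_cast h4.trans h2
  have h3' : (K : ℝ) * d ≤ 2 * (N * ((D + 2) ^ 2 * (2 * n + 2 * K ^ (4 * K * (D + 2) ^ 2)))) := by
    exact_mod_cast h3
  have hZ : (0 : ℝ) ≤ (K : ℝ) ^ (4 * K * (D + 2) ^ 2) := by positivity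
  generalize (K : ℝ) ^ (4 * K * (D + 2) ^ 2) = Z at *
  have hN : (0 : ℝ) ≤ N := by positivity
  have e1 : (b : ℝ) ≤ N * (1 + 2 / D) := by
    have : (N : ℝ) * (1 + 2 / D) = (D + 2) * N / D := by field_simp
    rw [this, le_div_iff₀ hD']; linarith
  have e2 : (d : ℝ) ≤ N * (4 * (D + 2) ^ 2 / K) * n + N * (4 * (D + 2) ^ 2 * Z) := by
    have : (N : ℝ) * (4 * (D + 2) ^ 2 / K) * n + N * (4 * (D + 2) ^ 2 * Z) =
        (N * (4 * (D + 2) ^ 2) * n + K * (N * (4 * (D + 2) ^ 2 * Z))) / K := by field_simp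
    rw [this, le_div_iff₀ (by linarith)]
    have : (N : ℝ) * (4 * (D + 2) ^ 2 * Z) ≤ K * (N * (4 * (D + 2) ^ 2 * Z)) :=
      le_mul_of_one_le_left (by positivity) hK'
    nlinarith
  have e3 : (a : ℝ) ≤ N * (4 * (D + 2) ^ 2 / K + (4 * (D + 2) ^ 2 * Z + 4 * (D + 2)) / n) := by
    have : (N : ℝ) * (4 * (D + 2) ^ 2 / K + (4 * (D + 2) ^ 2 * Z + 4 * (D + 2)) / n) =
        (N * (4 * (D + 2) ^ 2 / K) * n + N * (4 * (D + 2) ^ 2 * Z) + 4 * (D + 2) * N) / n := by
      field_simp
      ring
    rw [this, le_div_iff₀ hn'']; linarith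
  push_cast
  linarith

theorem main (ε : ℝ) (hε : 0 < ε) : ∃ n0 : ℕ, ∀ n ≥ n0, ∀ A : Finset (SimpleGraph (Fin n)),
    BAdd A → (∑ H ∈ A, (frag H : ℝ)) ≤ A.card * (1 + ε) := by
  obtain ⟨D, hD⟩ := exists_nat_gt (6 / ε)
  have hD0 : (0 : ℝ) < D := lt_trans (by positivity) hD
  obtain ⟨K, hK⟩ := exists_nat_gt (12 * ((D : ℝ) + 2) ^ 2 / ε)
  have hK0 : (0 : ℝ) < K := lt_trans (by positivity) hK
  obtain ⟨n0, hn0⟩ := exists_nat_gt (3 * (4 * ((D : ℝ) + 2) ^ 2 * (K : ℝ) ^ (4 * K * (D + 2) ^ 2) +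
    4 * (D + 2)) / ε)
  have hn00 : (0 : ℝ) < n0 := lt_trans (by positivity) hn0
  refine ⟨n0, fun n hn A hA => ?_⟩
  have hn' : (n0 : ℝ) ≤ n := by exact_mod_cast hn
  have hnpos : 0 < n := by
    have : (0 : ℝ) < n := by linarith
    exact_mod_cast this
  have h := bound hA D K (by exact_mod_cast hD0) (by exact_mod_cast hK0) (by simpa using hnpos)
  refine h.trans (mul_le_mul_of_nonneg_left ?_ (by positivity))
  rw [Fintype.card_fin]
  rw [div_lt_iff₀ hε] at hD hK hn0
  have e1 : 2 / (D : ℝ) ≤ ε / 3 := by rw [div_le_iff₀ hD0]; linarith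
  have e2 : 4 * ((D : ℝ) + 2) ^ 2 / K ≤ ε / 3 := by rw [div_le_iff₀ hK0]; linarith
  have e3 : (4 * ((D : ℝ) + 2) ^ 2 * (K : ℝ) ^ (4 * K * (D + 2) ^ 2) + 4 * (D + 2)) / n ≤ ε / 3 := by
    rw [div_le_iff₀ (by linarith)]
    have := mul_le_mul_of_nonneg_right hn' hε.le
    linarith
  linarith

end Pool.Agent.H.BA
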